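import Pool.Agent.V1188.FPC
import Pool.Agent.V1188.FP9

/-!
# The group of maps `y ↦ α y + b`, `α` a nonzero constant

Over the power series ring `F⟦t⟧` of a finite field with `d` elements the maps `y ↦ α y + b`, with
`α` a nonzero constant and `b` any power series, form a level-transitive group whose
fixed-point proportion is exactly `(d-2)/(d-1)`.
-/

namespace V1188.FP

open Finset Classical Filter PowerSeries

set_option linter.unusedSectionVars false

variable {X : Type} {F : Type} [Field F] (e : X ≃ F)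

lemma cc_C (α : F) : cc (PowerSeries.C α : PowerSeries F) = α := by unfold cc; simp

/-- maps with constant linear coefficient -/
noncomputable def conFam : Fam X where
  G n := {
    carrier := {g | ∃ (α : F) (b : PowerSeries F), α ≠ 0 ∧ g = A e n (PowerSeries.C α) b}
    one_mem' := ⟨1, 0, one_ne_zero, by rw [map_one]; exact (A_one e n).symm⟩
    mul_mem' := by
      rintro g h ⟨α, b, hα, rfl⟩ ⟨γ, d, hγ, rfl⟩
      refine ⟨α * γ, PowerSeries.C α * d + b, mul_ne_zero hα hγ, ?_⟩
      rw [A_mul e n _ b _ d (by rw [cc_C]; exact hα) (by rw [cc_C]; exact hγ), map_mul]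
    inv_mem' := by
      rintro g ⟨α, b, hα, rfl⟩
      refine ⟨α⁻¹, -(PowerSeries.C α⁻¹ * b), inv_ne_zero hα, ?_⟩
      apply inv_eq_of_mul_eq_one_right
      rw [A_mul e n _ b _ _ (by rw [cc_C]; exact hα) (by rw [cc_C]; exact inv_ne_zero hα)]
      have h1 : (PowerSeries.C α * PowerSeries.C α⁻¹ : PowerSeries F) = 1 := by
        rw [← map_mul, mul_inv_cancel₀ hα, map_one]
      have h2 : (PowerSeries.C α * -(PowerSeries.C α⁻¹ * b) + b : PowerSeries F) = 0 := by
        linear_combination (-b) * h1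
      rw [h1, h2, A_one] }
  compat n := by
    ext g
    rw [Subgroup.mem_map]
    constructor
    · rintro ⟨_, ⟨a, b, ha, rfl⟩, rfl⟩
      exact ⟨a, b, ha, A_tr e n _ b⟩
    · rintro ⟨a, b, ha, rfl⟩
      exact ⟨_, ⟨a, b, ha, rfl⟩, A_tr e n _ b⟩
  trans n v w := by
    obtain ⟨b, hb⟩ := A_trans e n v w
    exact ⟨_, ⟨1, b, one_ne_zero, by rw [map_one]⟩, hb⟩

lemma mem_conFam {n : ℕ} {g : TA X n} :
    g ∈ (conFam e).G n ↔ ∃ (α : F) (b : PowerSeries F), α ≠ 0 ∧ g = A e n (PowerSeries.C α) b :=
  Iff.rfl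

lemma con_hasFix : ∀ (n : ℕ) (α : F) (b : PowerSeries F), α ≠ 0 → α ≠ 1 →
    HasFix n (A e n (PowerSeries.C α) b)
  | 0, _, _, _, _ => trivial
  | n + 1, α, b, h0, h1 => by
    refine ⟨e.symm (cc b / (1 - α)), ?_, ?_⟩
    · show aff e (cc (PowerSeries.C α)) (cc b) (e.symm (cc b / (1 - α))) = _
      have h2 : (1 - α) ≠ 0 := sub_ne_zero.mpr (Ne.symm h1)
      rw [cc_C, aff_apply e h0, Equiv.apply_symm_apply]
      congr 1
      field_simp
      ring
    · exact con_hasFix n α _ h0 h1

lemma tra_hasFix (n : ℕ) (b : PowerSeries F) (h : HasFix n (A e n 1 b)) : A e n 1 b = 1 := by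
  obtain ⟨w, hw⟩ := fix_word n _ h
  have h1 := act_ev e n 1 b w (by rw [cc_one]; exact one_ne_zero)
  rw [hw] at h1
  apply A_triv e n 1 b (by simp)
  have e1 : ev e n w - (1 * ev e n w + b) = -b := by ring
  rwa [e1, dvd_neg] at h1

/-- the linear coefficient -/
noncomputable def lin (n : ℕ) (g : TA X (n + 1)) : Fˣ :=
  if h : e (Wr.s g (e.symm 1)) - e (Wr.s g (e.symm 0)) ≠ 0 then Units.mk0 _ h else 1

lemma lin_A (n : ℕ) (α : F) (b : PowerSeries F) (hα : α ≠ 0) :
    lin e n (A e (n + 1) (PowerSeries.C α) b) = Units.mk0 α hα := by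
  have h1 : e (Wr.s (A e (n + 1) (PowerSeries.C α) b) (e.symm 1)) -
      e (Wr.s (A e (n + 1) (PowerSeries.C α) b) (e.symm 0)) = α := by
    show e (aff e (cc (PowerSeries.C α)) (cc b) (e.symm 1)) -
      e (aff e (cc (PowerSeries.C α)) (cc b) (e.symm 0)) = α
    rw [cc_C, aff_apply e hα, aff_apply e hα]
    simp
  unfold lin
  rw [dif_pos (by rw [h1]; exact hα)]
  ext
  exact h1

variable [Fintype X] [Nonempty X]

lemma con_count (d : ℕ) (hd : d = Fintype.card X) (hd3 : 3 ≤ d) (n : ℕ) :
    ((d : ℤ) - 1) * (conFam e).fx (n + 1) = ((d : ℤ) - 2) * (conFam e).a (n + 1) + (d - 1) := by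
  have hF : Finite F := Finite.of_equiv X e
  have : Fintype F := Fintype.ofFinite F
  have hcu : Fintype.card Fˣ = d - 1 := by
    rw [Fintype.card_units, hd, Fintype.card_congr e]
  set G := (conFam e).G (n + 1) with hG
  have hmul : ∀ g ∈ G, ∀ h ∈ G, lin e n (g * h) = lin e n g * lin e n h := by
    rintro g ⟨α, b, hα, rfl⟩ h ⟨γ, c, hγ, rfl⟩
    rw [A_mul e (n + 1) _ b _ c (by rw [cc_C]; exact hα) (by rw [cc_C]; exact hγ), ← map_mul,
      lin_A e n _ _ hα, lin_A e n _ _ hγ, lin_A e n _ _ (mul_ne_zero hα hγ)]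
    ext; rfl
  have hsurj : ∀ u : Fˣ, ∃ g ∈ G, lin e n g = u := by
    intro u
    refine ⟨A e (n + 1) (PowerSeries.C (u : F)) 0, ⟨u, 0, u.ne_zero, rfl⟩, ?_⟩
    rw [lin_A e n _ _ u.ne_zero]
    ext; rfl
  have h1 := fiber_count' G (lin e n) hmul (fun _ => True)
  have h2 := fiber_count' G (lin e n) hmul (fun u => u ≠ 1)
  have i1 : img G (lin e n) (fun _ => True) = d - 1 := by
    unfold img
    rw [← hcu, ← Finset.card_univ]
    congr 1
    ext u
    simp only [mem_filter, mem_univ, true_and, and_true, iff_true]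
    exact hsurj u
  have i2 : img G (lin e n) (fun u => u ≠ 1) = d - 2 := by
    unfold img
    have : d - 2 = ((univ : Finset Fˣ).erase 1).card := by
      rw [Finset.card_erase_of_mem (mem_univ _), Finset.card_univ, hcu]; omega
    rw [this]
    congr 1
    ext u
    simp only [mem_filter, mem_univ, true_and, mem_erase, and_true]
    exact ⟨fun h => h.2, fun h => ⟨hsurj u, h⟩⟩
  rw [i1] at h1
  rw [i2] at h2
  set K := cnt G (fun g => lin e n g = 1) with hK
  have ha : (conFam e).a (n + 1) = K * (d - 1) := h1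
  have hs := cnt_split G (HasFix (n + 1)) (fun g => lin e n g ≠ 1)
  have hA : cnt G (fun g => HasFix (n + 1) g ∧ lin e n g ≠ 1) = K * (d - 2) := by
    rw [← h2]
    apply cnt_congr
    rintro g ⟨α, b, hα, rfl⟩
    constructor
    · exact fun h => h.2
    · intro h
      refine ⟨?_, h⟩
      apply con_hasFix e (n + 1) α b hα
      rintro rfl
      apply h
      rw [lin_A e n _ _ hα]
      ext; rfl
  have hB : cnt G (fun g => HasFix (n + 1) g ∧ ¬ (lin e n g ≠ 1)) = 1 := by
    unfold cnt
    rw [Finset.card_eq_one]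
    refine ⟨1, ?_⟩
    ext g
    simp only [mem_filter, mem_univ, true_and, mem_singleton, not_not]
    constructor
    · rintro ⟨⟨α, b, hα, rfl⟩, hf, hl⟩
      rw [lin_A e n _ _ hα] at hl
      have hα1 : α = 1 := by
        have := congrArg (fun u : Fˣ => (u : F)) hl
        simpa using this
      subst hα1
      rw [map_one] at hf ⊢
      exact tra_hasFix e (n + 1) b hf
    · rintro rfl
      refine ⟨Subgroup.one_mem _, hasFix_one (n + 1), ?_⟩
      have h3 : (1 : TA X (n + 1)) = A e (n + 1) (PowerSeries.C 1) 0 := by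
        rw [map_one]; exact (A_one e (n + 1)).symm
      rw [h3, lin_A e n 1 0 one_ne_zero]
      ext; rfl
  have hf : (conFam e).fx (n + 1) = K * (d - 2) + 1 := by
    have : (conFam e).fx (n + 1) = cnt G (HasFix (n + 1)) := rfl
    rw [this, hs, hA, hB]
  rw [ha, hf]
  zify [show 1 ≤ d by omega, show 2 ≤ d by omega]
  ring

lemma con_lim (d : ℕ) (hd : d = Fintype.card X) (hd3 : 3 ≤ d) :
    Tendsto (conFam e).P atTop (nhds (thr d)) := by
  set G := conFam e with hG
  have hP : ∀ n, G.P (n + 1) = thr d + 1 / (G.a (n + 1) : ℝ) := by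
    intro n
    have h := con_count e d hd hd3 n
    have h' : ((d : ℝ) - 1) * G.fx (n + 1) = ((d : ℝ) - 2) * G.a (n + 1) + (d - 1) := by
      exact_mod_cast h
    unfold Fam.P thr
    have h1 : (0 : ℝ) < (d : ℝ) - 1 := by
      have : (3 : ℝ) ≤ d := by exact_mod_cast hd3
      linarith
    have h2 : (0 : ℝ) < G.a (n + 1) := by exact_mod_cast a_pos G (n + 1)
    field_simp
    linarith
  rw [← tendsto_add_atTop_iff_nat 1]
  have hap : ∀ n, d ^ n ≤ G.a n := by
    intro n
    induction n with
    | zero => exact a_pos G 0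
    | succ n ih =>
      obtain ⟨u0⟩ := ‹Nonempty X›
      rw [a_eq G n u0, ← hd]
      have h1 : 1 ≤ cnt (G.G (n + 1)) (fun g => Wr.s g u0 = u0 ∧ Wr.f g u0 = 1) :=
        cnt_one_pos _ _ ⟨rfl, rfl⟩
      have hsec : d ^ n ≤ (G.sec u0).a n := by
        have hmono : G.a n ≤ (G.sec u0).a n := by
          unfold Fam.a
          unfold cnt
          apply Finset.card_le_card
          intro h hh
          simp only [mem_filter, mem_univ, true_and, and_true] at hh ⊢
          obtain ⟨α, b', hα, rfl⟩ := hh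
          set b : PowerSeries F := PowerSeries.C (e u0 - α * e u0) +
            PowerSeries.X * (b' - PowerSeries.C (e u0) * sh (PowerSeries.C α)) with hb
          obtain ⟨h1, h2⟩ := sh_unique hb
          refine ⟨A e (n + 1) (PowerSeries.C α) b, ⟨α, b, hα, rfl⟩, ?_, ?_⟩
          · show aff e (cc (PowerSeries.C α)) (cc b) u0 = u0
            rw [cc_C, aff_apply e hα, h1, Equiv.symm_apply_eq]
            ring
          · show A e n (PowerSeries.C α) (PowerSeries.C (e u0) * sh (PowerSeries.C α) + sh b) =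
              A e n (PowerSeries.C α) b'
            rw [h2]
            congr 1
            ring
        exact ih.trans hmono
      calc d ^ (n + 1) = d * (1 * d ^ n) := by ring
        _ ≤ _ := Nat.mul_le_mul_left _ (Nat.mul_le_mul h1 hsec)
  have h1 : Tendsto (fun n => (G.a (n + 1) : ℝ)) atTop atTop := by
    apply tendsto_natCast_atTop_atTop.comp
    apply tendsto_atTop_mono (f := fun n => n) _ tendsto_id
    intro n
    have h2 : n < d ^ n := Nat.lt_pow_self (by omega)
    have h3 : d ^ n ≤ d ^ (n + 1) := Nat.pow_le_pow_right (by omega) (by omega)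
    exact (h2.le.trans h3).trans (hap (n + 1))
  have h2 := (tendsto_const_nhds (x := (1 : ℝ)) (f := atTop)).div_atTop h1
  have h3 := (tendsto_const_nhds (x := thr d) (f := atTop)).add h2
  rw [add_zero] at h3
  exact h3.congr (fun n => (hP n).symm)

end V1188.FP
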