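import Pool.Agent.V1188.FP9

/-!
# Locally affine groups

`LA M r` is the group of automorphisms of the tree of depth `M` all of whose sections at level `k`
agree with an affine map of the power series ring on the first `r k` levels.
-/

namespace T9h67.FP

open Finset Classical Filter PowerSeries V1188.FP

set_option linter.unusedSectionVars false
set_option linter.unusedVariables false

/-- agreement on the first `j` levels -/
def Agr {X : Type} : (M j : ℕ) → TA X M → TA X M → Prop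
  | 0, _, _, _ => True
  | _ + 1, 0, _, _ => True
  | M + 1, j + 1, g, h => Wr.s g = Wr.s h ∧ ∀ x, Agr M j (Wr.f g x) (Wr.f h x)

section agr
variable {X : Type}

lemma Agr.zero : ∀ (M : ℕ) (g h : TA X M), Agr M 0 g h
  | 0, _, _ => trivial
  | _ + 1, _, _ => trivial

lemma Agr.refl : ∀ (M j : ℕ) (g : TA X M), Agr M j g g
  | 0, _, _ => trivial
  | _ + 1, 0, _ => trivial
  | M + 1, j + 1, g => ⟨rfl, fun x => Agr.refl M j _⟩

lemma Agr.symm : ∀ (M j : ℕ) (g h : TA X M), Agr M j g h → Agr M j h g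
  | 0, _, _, _, _ => trivial
  | _ + 1, 0, _, _, _ => trivial
  | M + 1, j + 1, _, _, h => ⟨h.1.symm, fun x => Agr.symm M j _ _ (h.2 x)⟩

lemma Agr.trans : ∀ (M j : ℕ) (g h k : TA X M), Agr M j g h → Agr M j h k → Agr M j g k
  | 0, _, _, _, _, _, _ => trivial
  | _ + 1, 0, _, _, _, _, _ => trivial
  | M + 1, j + 1, _, _, _, h, h' =>
    ⟨h.1.trans h'.1, fun x => Agr.trans M j _ _ _ (h.2 x) (h'.2 x)⟩

lemma Agr.mul : ∀ (M j : ℕ) (g h g' h' : TA X M), Agr M j g h → Agr M j g' h' →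
    Agr M j (g * g') (h * h')
  | 0, _, _, _, _, _, _, _ => trivial
  | _ + 1, 0, _, _, _, _, _, _ => trivial
  | M + 1, j + 1, g, h, g', h', h1, h2 => by
    refine ⟨?_, fun x => ?_⟩
    · show Wr.s g * Wr.s g' = Wr.s h * Wr.s h'
      rw [h1.1, h2.1]
    · show Agr M j (Wr.f g (Wr.s g' x) * Wr.f g' x) (Wr.f h (Wr.s h' x) * Wr.f h' x)
      rw [h2.1]
      exact Agr.mul M j _ _ _ _ (h1.2 _) (h2.2 x)

lemma Agr.inv : ∀ (M j : ℕ) (g h : TA X M), Agr M j g h → Agr M j g⁻¹ h⁻¹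
  | 0, _, _, _, _ => trivial
  | _ + 1, 0, _, _, _ => trivial
  | M + 1, j + 1, g, h, h1 => by
    refine ⟨?_, fun x => ?_⟩
    · show (Wr.s g)⁻¹ = (Wr.s h)⁻¹
      rw [h1.1]
    · show Agr M j (Wr.f g ((Wr.s g)⁻¹ x))⁻¹ (Wr.f h ((Wr.s h)⁻¹ x))⁻¹
      rw [h1.1]
      exact Agr.inv M j _ _ (h1.2 _)

lemma Agr.mono : ∀ (M j k : ℕ) (g h : TA X M), k ≤ j → Agr M j g h → Agr M k g h
  | 0, _, _, _, _, _, _ => trivial
  | _ + 1, _, 0, _, _, _, _ => trivial
  | _ + 1, 0, k + 1, _, _, h, _ => absurd h (by omega)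
  | M + 1, j + 1, k + 1, _, _, h, h1 =>
    ⟨h1.1, fun x => Agr.mono M j k _ _ (by omega) (h1.2 x)⟩

lemma Agr.eq : ∀ (M j : ℕ) (g h : TA X M), M ≤ j → Agr M j g h → g = h
  | 0, _, _, _, _, _ => rfl
  | M + 1, 0, _, _, h, _ => absurd h (by omega)
  | M + 1, j + 1, g, h, hj, h1 => by
    apply Wr.ext
    · exact h1.1
    · funext x
      exact Agr.eq M j _ _ (by omega) (h1.2 x)

lemma Agr.tr : ∀ (M j : ℕ) (g h : TA X (M + 1)), Agr (M + 1) j g h →
    Agr M j (V1188.FP.tr M g) (V1188.FP.tr M h)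
  | 0, _, _, _, _ => trivial
  | M + 1, 0, _, _, _ => trivial
  | M + 1, j + 1, g, h, h1 => ⟨h1.1, fun x => Agr.tr M j _ _ (h1.2 x)⟩

lemma Agr.of_tr : ∀ (M j : ℕ) (g h : TA X (M + 1)), j ≤ M →
    Agr M j (V1188.FP.tr M g) (V1188.FP.tr M h) → Agr (M + 1) j g h
  | _, 0, _, _, _, _ => Agr.zero _ _ _
  | 0, j + 1, _, _, h, _ => absurd h (by omega)
  | M + 1, j + 1, g, h, hj, h1 => ⟨h1.1, fun x => Agr.of_tr M j _ _ (by omega) (h1.2 x)⟩

lemma Agr.hasFix_one : ∀ (M j : ℕ) (g : TA X M), M ≤ j → Agr M j g 1 → Nonempty X → HasFix M g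
  | M, j, g, h, h1, _ => by
    rw [Agr.eq M j g 1 h h1]
    exact V1188.FP.hasFix_one M

end agr

variable {X : Type} {F : Type} [Field F] (e : X ≃ F)

lemma sh_sub (a b : PowerSeries F) : sh (a - b) = sh a - sh b := by
  ext k; simp [sh]

lemma cc_sub (a b : PowerSeries F) : cc (a - b) = cc a - cc b := by unfold cc; rw [map_sub]

lemma cc_add (a b : PowerSeries F) : cc (a + b) = cc a + cc b := by unfold cc; rw [map_add]

lemma dvd_iff_cc_sh (j : ℕ) (a : PowerSeries F) :
    PowerSeries.X ^ (j + 1) ∣ a ↔ cc a = 0 ∧ PowerSeries.X ^ j ∣ sh a := by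
  constructor
  · rintro ⟨p, hp⟩
    have h1 : a = PowerSeries.C 0 + PowerSeries.X * (PowerSeries.X ^ j * p) := by
      rw [map_zero, hp]; ring
    obtain ⟨h2, h3⟩ := sh_unique h1
    exact ⟨h2, p, h3⟩
  · rintro ⟨h1, p, hp⟩
    refine ⟨p, ?_⟩
    rw [sh_eq a, h1, hp, map_zero]
    ring

lemma dvd_cc_zero {j : ℕ} {a : PowerSeries F} (hj : 1 ≤ j) (h : PowerSeries.X ^ j ∣ a) :
    cc a = 0 := by
  obtain ⟨j, rfl⟩ : ∃ i, j = i + 1 := ⟨j - 1, by omega⟩
  exact ((dvd_iff_cc_sh j a).1 h).1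

lemma agrA : ∀ (M j : ℕ) (a b a' b' : PowerSeries F), cc a ≠ 0 → cc a' ≠ 0 →
    PowerSeries.X ^ j ∣ a - a' → PowerSeries.X ^ j ∣ b - b' →
    Agr M j (A e M a b) (A e M a' b')
  | 0, _, _, _, _, _, _, _, _, _ => trivial
  | _ + 1, 0, _, _, _, _, _, _, _, _ => trivial
  | M + 1, j + 1, a, b, a', b', ha, ha', h1, h2 => by
    obtain ⟨h3, h4⟩ := (dvd_iff_cc_sh j _).1 h1
    obtain ⟨h5, h6⟩ := (dvd_iff_cc_sh j _).1 h2
    rw [cc_sub, sub_eq_zero] at h3 h5
    rw [sh_sub] at h4 h6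
    refine ⟨?_, fun x => ?_⟩
    · show aff e (cc a) (cc b) = aff e (cc a') (cc b')
      rw [h3, h5]
    · show Agr M j (A e M a (PowerSeries.C (e x) * sh a + sh b))
        (A e M a' (PowerSeries.C (e x) * sh a' + sh b'))
      apply agrA M j _ _ _ _ ha ha'
      · exact (pow_dvd_pow _ (Nat.le_succ j)).trans h1
      · have : PowerSeries.C (e x) * sh a + sh b - (PowerSeries.C (e x) * sh a' + sh b') =
            PowerSeries.C (e x) * (sh a - sh a') + (sh b - sh b') := by ring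
        rw [this]
        exact dvd_add (h4.mul_left _) h6

lemma aff_inj {a b a' b' : F} (ha : a ≠ 0) (ha' : a' ≠ 0) (h : aff e a b = aff e a' b') :
    a = a' ∧ b = b' := by
  have h0 : b = b' := by
    have := congrFun (congrArg DFunLike.coe h) (e.symm 0)
    rw [aff_apply e ha, aff_apply e ha'] at this
    have := e.symm.injective this
    simpa using this
  refine ⟨?_, h0⟩
  have := congrFun (congrArg DFunLike.coe h) (e.symm 1)
  rw [aff_apply e ha, aff_apply e ha'] at this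
  have := e.symm.injective this
  rw [h0] at this
  simpa using this

lemma agrA_b : ∀ (M j : ℕ) (a b a' b' : PowerSeries F), j ≤ M → cc a ≠ 0 → cc a' ≠ 0 →
    Agr M j (A e M a b) (A e M a' b') → PowerSeries.X ^ j ∣ b - b'
  | _, 0, _, _, _, _, _, _, _, _ => by rw [pow_zero]; exact one_dvd _
  | 0, j + 1, _, _, _, _, h, _, _, _ => absurd h (by omega)
  | M + 1, j + 1, a, b, a', b', hj, ha, ha', h => by
    have h1 : aff e (cc a) (cc b) = aff e (cc a') (cc b') := h.1
    have h2 : Agr M j (A e M a (PowerSeries.C (e (e.symm 0)) * sh a + sh b))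
        (A e M a' (PowerSeries.C (e (e.symm 0)) * sh a' + sh b')) := h.2 (e.symm 0)
    have h3 := agrA_b M j _ _ _ _ (by omega) ha ha' h2
    rw [Equiv.apply_symm_apply, map_zero, zero_mul, zero_add, zero_mul, zero_add, ← sh_sub] at h3
    rw [dvd_iff_cc_sh, cc_sub]
    exact ⟨sub_eq_zero.mpr (aff_inj e ha ha' h1).2, h3⟩

lemma agrA_a (M j : ℕ) (a b a' b' : PowerSeries F) (hj1 : 1 ≤ j) (hj : j ≤ M) (ha : cc a ≠ 0)
    (ha' : cc a' ≠ 0) (h : Agr M j (A e M a b) (A e M a' b')) : PowerSeries.X ^ j ∣ a - a' := by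
  obtain ⟨j, rfl⟩ : ∃ i, j = i + 1 := ⟨j - 1, by omega⟩
  obtain ⟨M, rfl⟩ : ∃ i, M = i + 1 := ⟨M - 1, by omega⟩
  have h0 := agrA_b e (M + 1) (j + 1) _ _ _ _ hj ha ha' h
  have h1 : aff e (cc a) (cc b) = aff e (cc a') (cc b') := h.1
  have h2 : Agr M j (A e M a (PowerSeries.C (e (e.symm 1)) * sh a + sh b))
      (A e M a' (PowerSeries.C (e (e.symm 1)) * sh a' + sh b')) := h.2 (e.symm 1)
  have h3 := agrA_b e M j _ _ _ _ (by omega) ha ha' h2
  rw [Equiv.apply_symm_apply, map_one, one_mul, one_mul] at h3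
  rw [dvd_iff_cc_sh, cc_sub] at h0 ⊢
  refine ⟨sub_eq_zero.mpr (aff_inj e ha ha' h1).1, ?_⟩
  have h4 := dvd_sub h3 h0.2
  rw [sh_sub] at h4 ⊢
  have : sh a + sh b - (sh a' + sh b') - (sh b - sh b') = sh a - sh a' := by ring
  rwa [this] at h4

/-- Locally affine automorphisms: sections at level `k` are affine on the first `r k` levels. -/
noncomputable def LA : (M : ℕ) → (r : ℕ → ℕ) → Subgroup (TA X M)
  | 0, _ => ⊤
  | M + 1, r =>
    { carrier := {g : TA X (M + 1) | (∀ x, Wr.f g x ∈ LA M (fun i => r (i + 1))) ∧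
        ∃ a b : PowerSeries F, cc a ≠ 0 ∧ Agr (M + 1) (r 0) g (A e (M + 1) a b)}
      one_mem' := ⟨fun x => Subgroup.one_mem _, 1, 0, by rw [cc_one]; exact one_ne_zero, by
        rw [A_one]; exact Agr.refl _ _ _⟩
      mul_mem' := by
        rintro g h ⟨hg, a, b, ha, hg'⟩ ⟨hh, c, d, hc, hh'⟩
        refine ⟨fun x => Subgroup.mul_mem _ (hg _) (hh x), a * c, a * d + b, ?_, ?_⟩
        · unfold cc at *
          rw [map_mul]
          exact mul_ne_zero ha hc
        · rw [← A_mul e (M + 1) a b c d ha hc]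
          exact Agr.mul _ _ _ _ _ _ hg' hh'
      inv_mem' := by
        rintro g ⟨hg, a, b, ha, hg'⟩
        obtain ⟨h1, h2⟩ := A_inv e (M + 1) a b ha
        refine ⟨fun x => Subgroup.inv_mem _ (hg _), a⁻¹, -(a⁻¹ * b), h1, ?_⟩
        rw [← h2]
        exact Agr.inv _ _ _ _ hg' }

lemma mem_LA {M : ℕ} {r : ℕ → ℕ} {g : TA X (M + 1)} : g ∈ LA e (M + 1) r ↔
    (∀ x, Wr.f g x ∈ LA e M (fun i => r (i + 1))) ∧
      ∃ a b : PowerSeries F, cc a ≠ 0 ∧ Agr (M + 1) (r 0) g (A e (M + 1) a b) := Iff.rfl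

lemma A_mem_LA : ∀ (M : ℕ) (r : ℕ → ℕ) (a b : PowerSeries F), cc a ≠ 0 → A e M a b ∈ LA e M r
  | 0, _, _, _, _ => trivial
  | M + 1, r, a, b, ha => ⟨fun x => A_mem_LA M _ a _ ha, a, b, ha, Agr.refl _ _ _⟩

lemma LA_compat : ∀ (M : ℕ) (r : ℕ → ℕ), (LA e (M + 1) r).map (tr M) = LA e M r
  | 0, r => by
    ext g
    rw [Subgroup.mem_map]
    constructor
    · intro _; trivial
    · intro _; exact ⟨1, Subgroup.one_mem _, rfl⟩
  | M + 1, r => by
    ext g
    rw [Subgroup.mem_map]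
    constructor
    · rintro ⟨h, ⟨hh, a, b, ha, hh'⟩, rfl⟩
      refine ⟨fun x => ?_, a, b, ha, ?_⟩
      · rw [← LA_compat M (fun i => r (i + 1))]
        exact ⟨_, hh x, rfl⟩
      · rw [← A_tr]
        exact Agr.tr _ _ _ _ hh'
    · rintro ⟨hg, a, b, ha, hg'⟩
      rcases Nat.lt_or_ge (M + 1) (r 0) with hr | hr
      · refine ⟨A e (M + 2) a b, A_mem_LA e _ _ a b ha, ?_⟩
        rw [A_tr]
        exact (Agr.eq _ _ _ _ hr.le hg').symm
      · have hl : ∀ x, ∃ k ∈ LA e (M + 1) (fun i => r (i + 1)), tr M k = Wr.f g x := by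
          intro x
          have := hg x
          rw [← LA_compat M (fun i => r (i + 1))] at this
          exact this
        choose k hk1 hk2 using hl
        let g' : TA X (M + 2) := (⟨Wr.s g, k⟩ : Wr X (TA X (M + 1)))
        have hg'' : tr (M + 1) g' = g := by
          apply Wr.ext
          · rfl
          · funext x; exact hk2 x
        refine ⟨g', ⟨hk1, a, b, ha, ?_⟩, hg''⟩
        apply Agr.of_tr _ _ _ _ hr
        rw [hg'', A_tr]
        exact hg'

/-- the family of locally affine groups -/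
noncomputable def laFam (r : ℕ → ℕ) : Fam X where
  G M := LA e M r
  compat M := LA_compat e M r
  trans n v w := by
    obtain ⟨b, hb⟩ := A_trans e n v w
    exact ⟨_, A_mem_LA e n r 1 b (by rw [cc_one]; exact one_ne_zero), hb⟩

/-! ### Elements with a fixed word and without -/

/-- elements agreeing with `y ↦ a y + b` where `a - 1` has order `κ` and `b` order at least `κ`
have fixed words -/
lemma alive [Nonempty X] (κ : ℕ) (hκ : 1 ≤ κ) : ∀ (M : ℕ) (r : ℕ → ℕ), (∀ k, κ + 2 ≤ r k) →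
    ∀ g ∈ LA e M r, ∀ a b : PowerSeries F, Agr M (κ + 1) g (A e M a b) →
      PowerSeries.X ^ κ ∣ a - 1 → PowerSeries.coeff κ a ≠ 0 → PowerSeries.X ^ κ ∣ b → HasFix M g
  | 0, _, _, _, _, _, _, _, _, _, _ => trivial
  | M + 1, r, hr, g, ⟨hg, a', b', ha', hg'⟩, a, b, h1, h2, h3, h4 => by
    have hcc : cc a = 1 := by
      have := dvd_cc_zero hκ h2
      rw [cc_sub, cc_one, sub_eq_zero] at this
      exact this
    have hca : cc a ≠ 0 := by rw [hcc]; exact one_ne_zero
    rcases Nat.lt_or_ge M κ with hM | hM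
    · -- the element is trivial
      have h5 : A e (M + 1) a b = 1 := A_triv e (M + 1) a b
        ((pow_dvd_pow _ hM).trans h2) ((pow_dvd_pow _ hM).trans h4)
      rw [Agr.eq _ _ _ _ (by omega) h1, h5]
      exact V1188.FP.hasFix_one _
    · have h5 : Agr (M + 1) (κ + 1) (A e (M + 1) a b) (A e (M + 1) a' b') :=
        Agr.trans _ _ _ _ _ (Agr.symm _ _ _ _ h1) (Agr.mono _ _ _ _ _ (by have := hr 0; omega) hg')
      have h6 := agrA_a e _ _ _ _ _ _ (by omega) (by omega) hca ha' h5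
      have h7 := agrA_b e _ _ _ _ _ _ (by omega) hca ha' h5
      -- transfer the conditions
      have h2' : PowerSeries.X ^ κ ∣ a' - 1 := by
        have := dvd_sub h2 ((pow_dvd_pow _ (Nat.le_succ κ)).trans h6)
        have e1 : a - 1 - (a - a') = a' - 1 := by ring
        rwa [e1] at this
      have h4' : PowerSeries.X ^ κ ∣ b' := by
        have := dvd_sub h4 ((pow_dvd_pow _ (Nat.le_succ κ)).trans h7)
        have e1 : b - (b - b') = b' := by ring
        rwa [e1] at this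
      have h3' : PowerSeries.coeff κ a' ≠ 0 := by
        rw [PowerSeries.X_pow_dvd_iff] at h6
        have := h6 κ (by omega)
        rw [map_sub, sub_eq_zero] at this
        rw [← this]; exact h3
      have hcc' : cc a' = 1 := by
        have := dvd_cc_zero hκ h2'
        rw [cc_sub, cc_one, sub_eq_zero] at this
        exact this
      have hcb' : cc b' = 0 := dvd_cc_zero hκ h4'
      obtain ⟨κ', rfl⟩ : ∃ i, κ = i + 1 := ⟨κ - 1, by omega⟩
      set c : F := PowerSeries.coeff (κ' + 1) a' with hc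
      set d : F := PowerSeries.coeff (κ' + 1) b' with hd
      obtain ⟨r0, hr0⟩ : ∃ i, r 0 = i + 1 := ⟨r 0 - 1, by have := hr 0; omega⟩
      rw [hr0] at hg'
      refine ⟨e.symm (-(d / c)), ?_, ?_⟩
      · have h8 : Wr.s g = aff e (cc a') (cc b') := hg'.1
        rw [h8, hcc', hcb', aff_apply e one_ne_zero]
        simp
      · have h8 : Agr M r0 (Wr.f g (e.symm (-(d / c)))) (A e M a'
            (PowerSeries.C (e (e.symm (-(d / c)))) * sh a' + sh b')) := hg'.2 _
        rw [Equiv.apply_symm_apply] at h8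
        apply alive (κ' + 1) hκ M (fun i => r (i + 1)) (fun k => hr (k + 1)) _ (hg _) a' _
          (Agr.mono _ _ _ _ _ (by have := hr 0; omega) h8) h2' h3'
        rw [PowerSeries.X_pow_dvd_iff]
        intro m hm
        have e1 : PowerSeries.coeff m (PowerSeries.C (-(d / c)) * sh a' + sh b') =
            -(d / c) * PowerSeries.coeff (m + 1) a' + PowerSeries.coeff (m + 1) b' := by
          simp [sh]
        rw [e1]
        rcases Nat.lt_or_ge m κ' with hm' | hm'
        · rw [PowerSeries.X_pow_dvd_iff] at h2' h4'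
          have e2 := h2' (m + 1) (by omega)
          have e3 := h4' (m + 1) (by omega)
          rw [map_sub, PowerSeries.coeff_one, if_neg (by omega), sub_zero] at e2
          rw [e2, e3]; ring
        · have : m = κ' := by omega
          subst this
          rw [← hc, ← hd]
          field_simp
          ring

/-- elements agreeing with the translation by `ε t ^ n`, `ε ≠ 0`, have no fixed words -/
lemma dead (ε : F) (hε : ε ≠ 0) : ∀ (n M : ℕ) (g : TA X M), n + 1 ≤ M →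
    Agr M (n + 1) g (A e M 1 (PowerSeries.C ε * PowerSeries.X ^ n)) → ¬ HasFix M g
  | _, 0, _, h, _ => absurd h (by omega)
  | 0, M + 1, g, _, h => by
    rintro ⟨u, hu, -⟩
    have h1 : Wr.s g = aff e (cc 1) (cc (PowerSeries.C ε * PowerSeries.X ^ 0)) := h.1
    have h2 : cc (PowerSeries.C ε * PowerSeries.X ^ 0 : PowerSeries F) = ε := by
      unfold cc; simp
    rw [h1, h2, cc_one, aff_apply e one_ne_zero, Equiv.symm_apply_eq] at hu
    apply hε
    simpa using hu
  | n + 1, M + 1, g, hM, h => by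
    rintro ⟨u, hu, hu'⟩
    have h1 : (PowerSeries.C ε * PowerSeries.X ^ (n + 1) : PowerSeries F) = PowerSeries.C 0 +
        PowerSeries.X * (PowerSeries.C ε * PowerSeries.X ^ n) := by
      rw [map_zero]; ring
    obtain ⟨h2, h3⟩ := sh_unique h1
    obtain ⟨h4, h5⟩ := sh_unique (F := F) (a := 1) (s := 0) (c := 1) (by simp)
    have h6 : Agr M (n + 1) (Wr.f g u) (A e M 1 (PowerSeries.C (e u) * sh 1 +
      sh (PowerSeries.C ε * PowerSeries.X ^ (n + 1)))) := h.2 u
    rw [h3, h5, mul_zero, zero_add] at h6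
    exact dead ε hε n M _ (by omega) h6 hu'

end T9h67.FP
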