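import Pool.Agent.T9h67.FPA

/-!
# Counting in locally affine groups over a field with two elements
-/

namespace T9h67.FP

open Finset Classical Filter PowerSeries V1188.FP

set_option linter.unusedSectionVars false
set_option linter.unusedVariables false

variable {X : Type} {F : Type} [Field F] (e : X ≃ F)

/-- trivial on the first `n` levels and constant on the next one -/
def Tp (M n : ℕ) (g : TA X M) : Prop :=
  ∃ ε : F, Agr M (n + 1) g (A e M 1 (PowerSeries.C ε * PowerSeries.X ^ n))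

/-- finer classes -/
def Cl (M n : ℕ) (α β : F) (g : TA X M) : Prop :=
  ∃ β' : F, Agr M (n + 2) g (A e M (1 + PowerSeries.C α * PowerSeries.X ^ (n + 1))
    (PowerSeries.C β * PowerSeries.X ^ n + PowerSeries.C β' * PowerSeries.X ^ (n + 1)))

lemma cnt_shift {A : Type} [Group A] [Fintype A] (G : Subgroup A) (P : A → Prop) {y : A}
    (hy : y ∈ G) : cnt G (fun g => P (y⁻¹ * g)) = cnt G P := by
  unfold cnt
  apply Finset.card_bij (fun g _ => y⁻¹ * g)
  · intro g hg
    simp only [mem_filter, mem_univ, true_and] at hg ⊢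
    exact ⟨G.mul_mem (G.inv_mem hy) hg.1, hg.2⟩
  · intro a _ b _ hab
    exact mul_left_cancel hab
  · intro k hk
    simp only [mem_filter, mem_univ, true_and] at hk
    refine ⟨y * k, ?_, by group⟩
    simp only [mem_filter, mem_univ, true_and]
    refine ⟨G.mul_mem hy hk.1, ?_⟩
    rw [inv_mul_cancel_left]
    exact hk.2

lemma cnt_zero {A : Type} [Group A] [Fintype A] (G : Subgroup A) (P : A → Prop)
    (h : ∀ g ∈ G, ¬ P g) : cnt G P = 0 := by
  unfold cnt
  rw [Finset.card_eq_zero, Finset.filter_eq_empty_iff]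
  rintro g - ⟨h1, h2⟩
  exact h g h1 h2

lemma cnt_or {A : Type} [Group A] [Fintype A] (G : Subgroup A) (P Q R : A → Prop)
    (h : ∀ g ∈ G, R g ↔ P g ∨ Q g) (hd : ∀ g ∈ G, P g → ¬ Q g) : cnt G R = cnt G P + cnt G Q := by
  unfold cnt
  rw [← Finset.card_union_of_disjoint]
  · congr 1
    ext g
    simp only [mem_filter, mem_univ, true_and, mem_union]
    constructor
    · rintro ⟨h1, h3⟩
      rcases (h g h1).1 h3 with h4 | h4
      · exact Or.inl ⟨h1, h4⟩
      · exact Or.inr ⟨h1, h4⟩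
    · rintro (⟨h1, h3⟩ | ⟨h1, h3⟩)
      · exact ⟨h1, (h g h1).2 (Or.inl h3)⟩
      · exact ⟨h1, (h g h1).2 (Or.inr h3)⟩
  · rw [Finset.disjoint_left]
    intro g hg hg'
    simp only [mem_filter, mem_univ, true_and] at hg hg'
    exact hd g hg.1 hg.2 hg'.2

lemma cc_tr (n : ℕ) (α : F) : cc (1 + PowerSeries.C α * PowerSeries.X ^ (n + 1) :
    PowerSeries F) = 1 := by
  unfold cc; simp

lemma cc_tr' (n : ℕ) (α : F) : cc (1 + PowerSeries.C α * PowerSeries.X ^ (n + 1) :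
    PowerSeries F) ≠ 0 := by
  rw [cc_tr]; exact one_ne_zero

lemma cc_one' : cc (1 : PowerSeries F) ≠ 0 := by rw [cc_one]; exact one_ne_zero

/-- shifting a finer class -/
lemma Cl_shift (M n : ℕ) (α β : F) (g : TA X M) :
    Cl e M n α β g ↔ Cl e M n 0 0 ((A e M (1 + PowerSeries.C α * PowerSeries.X ^ (n + 1))
      (PowerSeries.C β * PowerSeries.X ^ n))⁻¹ * g) := by
  set a : PowerSeries F := 1 + PowerSeries.C α * PowerSeries.X ^ (n + 1) with ha
  set b : PowerSeries F := PowerSeries.C β * PowerSeries.X ^ n with hb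
  have hca : cc a ≠ 0 := cc_tr' n α
  have key : ∀ β' : F, Agr M (n + 2) (A e M a b * A e M 1 (PowerSeries.C β' *
      PowerSeries.X ^ (n + 1))) (A e M a (b + PowerSeries.C β' * PowerSeries.X ^ (n + 1))) := by
    intro β'
    rw [A_mul e M a b 1 _ hca cc_one', mul_one]
    apply agrA e M _ _ _ _ _ hca hca
    · rw [sub_self]; exact dvd_zero _
    · have : a * (PowerSeries.C β' * PowerSeries.X ^ (n + 1)) + b -
          (b + PowerSeries.C β' * PowerSeries.X ^ (n + 1)) =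
          PowerSeries.X ^ (n + 2) * (PowerSeries.C α * PowerSeries.C β' * PowerSeries.X ^ n) := by
        rw [ha]; ring
      rw [this]
      exact dvd_mul_right _ _
  have hz : ∀ β' : F, A e M (1 + PowerSeries.C 0 * PowerSeries.X ^ (n + 1))
      (PowerSeries.C 0 * PowerSeries.X ^ n + PowerSeries.C β' * PowerSeries.X ^ (n + 1)) =
      A e M 1 (PowerSeries.C β' * PowerSeries.X ^ (n + 1)) := by
    intro β'
    rw [map_zero, zero_mul, zero_mul, add_zero, zero_add]
  unfold Cl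
  constructor
  · rintro ⟨β', h⟩
    refine ⟨β', ?_⟩
    rw [hz]
    have h1 := Agr.trans _ _ _ _ _ h (Agr.symm _ _ _ _ (key β'))
    have h3 := Agr.mul _ _ _ _ _ _ (Agr.refl M (n + 2) (A e M a b)⁻¹) h1
    rwa [inv_mul_cancel_left] at h3
  · rintro ⟨β', h⟩
    refine ⟨β', ?_⟩
    rw [hz] at h
    have h3 := Agr.mul _ _ _ _ _ _ (Agr.refl M (n + 2) (A e M a b)) h
    rw [mul_inv_cancel_left] at h3
    exact Agr.trans _ _ _ _ _ h3 (key β')

lemma Cl_zero (M n : ℕ) (g : TA X M) : Cl e M n 0 0 g ↔ Tp e M (n + 1) g := by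
  unfold Cl Tp
  constructor
  · rintro ⟨β', h⟩
    rw [map_zero, zero_mul, zero_mul, add_zero, zero_add] at h
    exact ⟨β', h⟩
  · rintro ⟨β', h⟩
    refine ⟨β', ?_⟩
    rw [map_zero, zero_mul, zero_mul, add_zero, zero_add]
    exact h

/-- distinct classes are disjoint -/
lemma Cl_disj (M n : ℕ) (hM : n + 2 ≤ M) (α β α' β' : F) (g : TA X M) (h : Cl e M n α β g)
    (h' : Cl e M n α' β' g) : α = α' ∧ β = β' := by
  obtain ⟨γ, h⟩ := h
  obtain ⟨γ', h'⟩ := h'
  have h1 := Agr.trans _ _ _ _ _ (Agr.symm _ _ _ _ h) h'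
  have h3 := agrA_a e _ _ _ _ _ _ (by omega) hM (cc_tr' n α) (cc_tr' n α') h1
  have h4 := agrA_b e _ _ _ _ _ _ hM (cc_tr' n α) (cc_tr' n α') h1
  rw [PowerSeries.X_pow_dvd_iff] at h3 h4
  have h5 := h3 (n + 1) (by omega)
  have h6 := h4 n (by omega)
  simp [PowerSeries.coeff_X_pow, sub_eq_zero] at h5 h6
  exact ⟨h5, h6⟩

/-- the classes cover -/
lemma Tp_iff (M n : ℕ) (hM : n + 2 ≤ M) (r : ℕ → ℕ) (hr : n + 2 ≤ r 0) (g : TA X M)
    (hg : g ∈ LA e M r) : Tp e M n g ↔ ∃ α β : F, Cl e M n α β g := by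
  obtain ⟨M, rfl⟩ : ∃ i, M = i + 1 := ⟨M - 1, by omega⟩
  obtain ⟨hg1, a, b, ha, hg2⟩ := hg
  have hg2' := Agr.mono _ _ (n + 2) _ _ hr hg2
  constructor
  · rintro ⟨ε, h⟩
    have h1 := Agr.trans _ _ _ _ _ (Agr.symm _ _ _ _ (Agr.mono _ _ (n + 1) _ _ (by omega) hg2')) h
    have h3 := agrA_a e _ _ _ _ _ _ (by omega) (by omega) ha cc_one' h1
    have h4 := agrA_b e _ _ _ _ _ _ (by omega) ha cc_one' h1
    refine ⟨PowerSeries.coeff (n + 1) a, ε, PowerSeries.coeff (n + 1) b, ?_⟩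
    refine Agr.trans _ _ _ _ _ hg2' (agrA e _ _ _ _ _ _ ha (cc_tr' n _) ?_ ?_)
    · rw [PowerSeries.X_pow_dvd_iff] at h3 ⊢
      intro m hm
      rcases Nat.lt_or_ge m (n + 1) with hm' | hm'
      · have := h3 m hm'
        rw [map_sub] at this ⊢
        rw [map_add, PowerSeries.coeff_C_mul, PowerSeries.coeff_X_pow, if_neg (by omega)]
        rw [mul_zero, add_zero]; exact this
      · have : m = n + 1 := by omega
        subst this
        simp [PowerSeries.coeff_one]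
    · rw [PowerSeries.X_pow_dvd_iff] at h4 ⊢
      intro m hm
      rcases Nat.lt_or_ge m (n + 1) with hm' | hm'
      · have := h4 m hm'
        rw [map_sub] at this ⊢
        rw [map_add, PowerSeries.coeff_C_mul m (PowerSeries.X ^ (n + 1)),
          PowerSeries.coeff_X_pow m (n + 1), if_neg (show ¬ m = n + 1 by omega), mul_zero, add_zero]
        exact this
      · have : m = n + 1 := by omega
        subst this
        simp [PowerSeries.coeff_X_pow]
  · rintro ⟨α, β, γ, h⟩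
    refine ⟨β, Agr.trans _ _ _ _ _ (Agr.mono _ _ (n + 1) _ _ (by omega) h)
      (agrA e _ _ _ _ _ _ (cc_tr' n α) cc_one' ?_ ?_)⟩
    · exact ⟨PowerSeries.C α, by ring⟩
    · exact ⟨PowerSeries.C γ, by ring⟩

variable (h2 : ∀ x : F, x = 0 ∨ x = 1)

/-- sum over the four classes -/
lemma sum_classes [Fintype X] (h2 : ∀ x : F, x = 0 ∨ x = 1) (M n : ℕ) (hM : n + 2 ≤ M)
    (r : ℕ → ℕ) (hr : n + 2 ≤ r 0) (Q : TA X M → Prop) :
    cnt (LA e M r) (fun g => Tp e M n g ∧ Q g) =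
      cnt (LA e M r) (fun g => Cl e M n 0 0 g ∧ Q g) +
      cnt (LA e M r) (fun g => Cl e M n 1 0 g ∧ Q g) +
      (cnt (LA e M r) (fun g => Cl e M n 0 1 g ∧ Q g) +
      cnt (LA e M r) (fun g => Cl e M n 1 1 g ∧ Q g)) := by
  rw [← cnt_or (LA e M r) (fun g => Cl e M n 0 0 g ∧ Q g) (fun g => Cl e M n 1 0 g ∧ Q g)
    (fun g => (Cl e M n 0 0 g ∨ Cl e M n 1 0 g) ∧ Q g)]
  · rw [← cnt_or (LA e M r) (fun g => Cl e M n 0 1 g ∧ Q g) (fun g => Cl e M n 1 1 g ∧ Q g)
      (fun g => (Cl e M n 0 1 g ∨ Cl e M n 1 1 g) ∧ Q g)]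
    · rw [← cnt_or (LA e M r)]
      · intro g hg
        rw [Tp_iff e M n hM r hr g hg]
        constructor
        · rintro ⟨⟨α, β, h⟩, hQ⟩
          rcases h2 α with rfl | rfl <;> rcases h2 β with rfl | rfl
          · exact Or.inl ⟨Or.inl h, hQ⟩
          · exact Or.inr ⟨Or.inl h, hQ⟩
          · exact Or.inl ⟨Or.inr h, hQ⟩
          · exact Or.inr ⟨Or.inr h, hQ⟩
        · rintro (⟨h | h, hQ⟩ | ⟨h | h, hQ⟩)
          · exact ⟨⟨_, _, h⟩, hQ⟩
          · exact ⟨⟨_, _, h⟩, hQ⟩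
          · exact ⟨⟨_, _, h⟩, hQ⟩
          · exact ⟨⟨_, _, h⟩, hQ⟩
      · rintro g hg ⟨h | h, _⟩ ⟨h' | h', _⟩
        · exact zero_ne_one (Cl_disj e M n hM _ _ _ _ g h h').2
        · exact zero_ne_one (Cl_disj e M n hM _ _ _ _ g h h').2
        · exact zero_ne_one (Cl_disj e M n hM _ _ _ _ g h h').2
        · exact zero_ne_one (Cl_disj e M n hM _ _ _ _ g h h').2
    · intro g hg; tauto
    · rintro g hg ⟨h, _⟩ ⟨h', _⟩
      exact zero_ne_one (Cl_disj e M n hM _ _ _ _ g h h').1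
  · intro g hg; tauto
  · rintro g hg ⟨h, _⟩ ⟨h', _⟩
    exact zero_ne_one (Cl_disj e M n hM _ _ _ _ g h h').1

lemma cnt_Cl [Fintype X] (M n : ℕ) (r : ℕ → ℕ) (α β : F) :
    cnt (LA e M r) (Cl e M n α β) = cnt (LA e M r) (Tp e M (n + 1)) := by
  rw [cnt_congr (LA e M r) (fun g _ => Cl_shift e M n α β g)]
  rw [cnt_shift (LA e M r) (Cl e M n 0 0) (A_mem_LA e M r _ _ (cc_tr' n α))]
  exact cnt_congr (LA e M r) (fun g _ => Cl_zero e M n g)

/-- number of elements in the class of precision `n` -/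
noncomputable def tot [Fintype X] (M n : ℕ) (r : ℕ → ℕ) : ℕ := cnt (LA e M r) (Tp e M n)

/-- number of those without fixed words -/
noncomputable def nof [Fintype X] (M n : ℕ) (r : ℕ → ℕ) : ℕ :=
  cnt (LA e M r) (fun g => Tp e M n g ∧ ¬ HasFix M g)

lemma tot_refine [Fintype X] (h2 : ∀ x : F, x = 0 ∨ x = 1) (M n : ℕ) (hM : n + 2 ≤ M)
    (r : ℕ → ℕ) (hr : n + 2 ≤ r 0) : tot e M n r = 4 * tot e M (n + 1) r := by
  have h := sum_classes e h2 M n hM r hr (fun _ => True)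
  have h3 : ∀ P : TA X M → Prop, cnt (LA e M r) (fun g => P g ∧ True) = cnt (LA e M r) P :=
    fun P => cnt_congr _ (fun g _ => by simp)
  rw [h3, h3, h3, h3, h3, cnt_Cl, cnt_Cl, cnt_Cl, cnt_Cl] at h
  unfold tot
  rw [h]
  ring

lemma nof_refine [Fintype X] [Nonempty X] (h2 : ∀ x : F, x = 0 ∨ x = 1) (M n : ℕ)
    (hM : n + 2 ≤ M) (r : ℕ → ℕ) (hr : ∀ k, n + 3 ≤ r k) :
    nof e M n r = 2 * tot e M (n + 1) r + nof e M (n + 1) r := by
  have h := sum_classes e h2 M n hM r (by have := hr 0; omega) (fun g => ¬ HasFix M g)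
  have h00 : cnt (LA e M r) (fun g => Cl e M n 0 0 g ∧ ¬ HasFix M g) = nof e M (n + 1) r :=
    cnt_congr _ (fun g _ => by rw [Cl_zero])
  have h10 : cnt (LA e M r) (fun g => Cl e M n 1 0 g ∧ ¬ HasFix M g) = 0 := by
    apply cnt_zero
    rintro g hg ⟨⟨γ, h3⟩, h4⟩
    apply h4
    apply alive e (n + 1) (by omega) M r hr g hg _ _ h3
    · exact ⟨PowerSeries.C 1, by ring⟩
    · simp [PowerSeries.coeff_one, PowerSeries.coeff_X_pow]
    · rw [map_zero, zero_mul, zero_add]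
      exact ⟨PowerSeries.C γ, by ring⟩
  have h1 : ∀ α : F, cnt (LA e M r) (fun g => Cl e M n α 1 g ∧ ¬ HasFix M g) =
      tot e M (n + 1) r := by
    intro α
    rw [tot, ← cnt_Cl e M n r α 1]
    apply cnt_congr
    intro g hg
    constructor
    · exact fun h => h.1
    · rintro ⟨γ, h3⟩
      refine ⟨⟨γ, h3⟩, ?_⟩
      apply dead e 1 one_ne_zero n M g (by omega)
      refine Agr.trans _ _ _ _ _ (Agr.mono _ _ (n + 1) _ _ (by omega) h3)
        (agrA e _ _ _ _ _ _ (cc_tr' n α) cc_one' ?_ ?_)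
      · exact ⟨PowerSeries.C α, by ring⟩
      · exact ⟨PowerSeries.C γ, by ring⟩
  rw [h00, h10, h1, h1] at h
  unfold nof at *
  rw [h]
  ring

/-! ### Passing to the sections -/

lemma Tp_split (h2 : ∀ x : F, x = 0 ∨ x = 1) (M n : ℕ) (g : TA X M) : Tp e M n g ↔
    (Agr M (n + 1) g 1 ∨ Agr M (n + 1) ((A e M 1 (PowerSeries.X ^ n))⁻¹ * g) 1) := by
  unfold Tp
  have h0 : A e M 1 (PowerSeries.C 0 * PowerSeries.X ^ n) = 1 := by
    rw [map_zero, zero_mul, A_one]
  have h1 : A e M 1 (PowerSeries.C 1 * PowerSeries.X ^ n) = A e M 1 (PowerSeries.X ^ n) := by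
    rw [map_one, one_mul]
  constructor
  · rintro ⟨ε, h⟩
    rcases h2 ε with rfl | rfl
    · left; rw [h0] at h; exact h
    · right
      rw [h1] at h
      have h3 := Agr.mul _ _ _ _ _ _ (Agr.refl M (n + 1) (A e M 1 (PowerSeries.X ^ n))⁻¹) h
      rwa [inv_mul_cancel] at h3
  · rintro (h | h)
    · refine ⟨0, ?_⟩; rw [h0]; exact h
    · refine ⟨1, ?_⟩
      rw [h1]
      have h3 := Agr.mul _ _ _ _ _ _ (Agr.refl M (n + 1) (A e M 1 (PowerSeries.X ^ n))) h
      rwa [mul_inv_cancel_left, mul_one] at h3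

lemma split_disj (M n : ℕ) (hM : n + 1 ≤ M) (g : TA X M) (h : Agr M (n + 1) g 1) :
    ¬ Agr M (n + 1) ((A e M 1 (PowerSeries.X ^ n))⁻¹ * g) 1 := by
  intro h'
  have h3 := Agr.mul _ _ _ _ _ _ (Agr.refl M (n + 1) (A e M 1 (PowerSeries.X ^ n))) h'
  rw [mul_inv_cancel_left, mul_one] at h3
  have h4 := Agr.trans _ _ _ _ _ (Agr.symm _ _ _ _ h3) h
  rw [← A_one e M] at h4
  have h5 := agrA_b e _ _ _ _ _ _ hM cc_one' cc_one' h4
  rw [sub_zero, PowerSeries.X_pow_dvd_iff] at h5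
  have := h5 n (by omega)
  simp at this

/-- pairs of sections -/
lemma cnt_pairs [Fintype X] (h2 : ∀ x : F, x = 0 ∨ x = 1) (M n : ℕ) (hM : n + 1 ≤ M)
    (r : ℕ → ℕ) (hr : r 0 = n + 2) (C : TA X M → Prop) :
    cnt (LA e (M + 1) r) (fun g => Agr (M + 1) (n + 1) g 1 ∧ ∀ x, C (Wr.f g x)) =
      cnt (LA e M (fun i => r (i + 1))) (fun g => Tp e M n g ∧ C g) ^ 2 := by
  have hx : ∀ x : X, x = e.symm 0 ∨ x = e.symm 1 := by
    intro x
    rcases h2 (e x) with h | h
    · left; rw [← h, Equiv.symm_apply_apply]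
    · right; rw [← h, Equiv.symm_apply_apply]
  have hne : e.symm 0 ≠ e.symm 1 := fun h => zero_ne_one (e.symm.injective h)
  unfold cnt
  rw [sq, ← Finset.card_product]
  apply Finset.card_bij (fun (g : TA X (M + 1)) _ => (Wr.f g (e.symm 0), Wr.f g (e.symm 1)))
  · intro g hg
    simp only [mem_filter, mem_univ, true_and, mem_product] at hg ⊢
    obtain ⟨⟨hg1, a, b, ha, hg2⟩, hg3, hg4⟩ := hg
    rw [hr] at hg2
    have h3 : ∀ x, Tp e M n (Wr.f g x) := by
      intro x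
      have h4 := Agr.trans _ _ _ _ _ (Agr.symm _ _ _ _ (Agr.mono _ _ (n + 1) _ _ (by omega) hg2))
        hg3
      rw [← A_one e (M + 1)] at h4
      have h5 := agrA_a e _ _ _ _ _ _ (by omega) (by omega) ha cc_one' h4
      have h6 := agrA_b e _ _ _ _ _ _ (by omega) ha cc_one' h4
      have h7 : Agr M (n + 1) (Wr.f g x) (A e M a (PowerSeries.C (e x) * sh a + sh b)) := hg2.2 x
      have h8 : PowerSeries.X ^ n ∣ PowerSeries.C (e x) * sh a + sh b := by
        have h9 := ((dvd_iff_cc_sh n _).1 h5).2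
        have h10 := ((dvd_iff_cc_sh n _).1 h6).2
        have h11 : sh (1 : PowerSeries F) = 0 :=
          (sh_unique (F := F) (a := 1) (s := 0) (c := 1) (by simp)).2
        rw [sh_sub, h11, sub_zero] at h9
        rw [sub_zero] at h10
        exact dvd_add (h9.mul_left _) h10
      refine ⟨PowerSeries.coeff n (PowerSeries.C (e x) * sh a + sh b), ?_⟩
      refine Agr.trans _ _ _ _ _ h7 (agrA e _ _ _ _ _ _ ha cc_one' h5 ?_)
      rw [PowerSeries.X_pow_dvd_iff] at h8 ⊢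
      intro m hm
      rcases Nat.lt_or_ge m n with hm' | hm'
      · have := h8 m hm'
        rw [map_sub, this, PowerSeries.coeff_C_mul, PowerSeries.coeff_X_pow, if_neg (by omega)]
        simp
      · have : m = n := by omega
        subst this
        rw [map_sub, PowerSeries.coeff_C_mul _ (PowerSeries.X ^ m), PowerSeries.coeff_X_pow,
          if_pos rfl, mul_one, sub_self]
    exact ⟨⟨hg1 _, h3 _, hg4 _⟩, ⟨hg1 _, h3 _, hg4 _⟩⟩
  · intro g hg h hh hgh
    simp only [mem_filter, mem_univ, true_and] at hg hh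
    have hgs : Wr.s g = 1 := hg.2.1.1
    have hhs : Wr.s h = 1 := hh.2.1.1
    have h3 : Wr.f g (e.symm 0) = Wr.f h (e.symm 0) := congrArg Prod.fst hgh
    have h4 : Wr.f g (e.symm 1) = Wr.f h (e.symm 1) := congrArg Prod.snd hgh
    apply Wr.ext
    · rw [hgs, hhs]
    · funext x
      rcases hx x with rfl | rfl
      · exact h3
      · exact h4
  · rintro ⟨u, v⟩ huv
    simp only [mem_filter, mem_univ, true_and, mem_product] at huv
    obtain ⟨⟨hu1, ⟨ε, hu2⟩, hu3⟩, ⟨hv1, ⟨δ, hv2⟩, hv3⟩⟩ := huv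
    let g : TA X (M + 1) := (⟨1, fun x => if x = e.symm 0 then u else v⟩ : Wr X (TA X M))
    have hg0 : Wr.f g (e.symm 0) = u := if_pos rfl
    have hg1 : Wr.f g (e.symm 1) = v := if_neg hne.symm
    refine ⟨g, ?_, by rw [hg0, hg1]⟩
    simp only [mem_filter, mem_univ, true_and]
    refine ⟨⟨?_, 1 + PowerSeries.C (δ - ε) * PowerSeries.X ^ (n + 1),
      PowerSeries.C ε * PowerSeries.X ^ (n + 1), cc_tr' n _, ?_⟩, ⟨rfl, ?_⟩, ?_⟩
    · intro x
      rcases hx x with rfl | rfl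
      · rw [hg0]; exact hu1
      · rw [hg1]; exact hv1
    · rw [hr]
      have ha : (1 + PowerSeries.C (δ - ε) * PowerSeries.X ^ (n + 1) : PowerSeries F) =
          PowerSeries.C 1 + PowerSeries.X * (PowerSeries.C (δ - ε) * PowerSeries.X ^ n) := by
        rw [map_one]; ring
      have hb : (PowerSeries.C ε * PowerSeries.X ^ (n + 1) : PowerSeries F) =
          PowerSeries.C 0 + PowerSeries.X * (PowerSeries.C ε * PowerSeries.X ^ n) := by
        rw [map_zero]; ring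
      obtain ⟨ha1, ha2⟩ := sh_unique ha
      obtain ⟨hb1, hb2⟩ := sh_unique hb
      refine ⟨?_, fun x => ?_⟩
      · show (1 : Equiv.Perm X) = aff e (cc (1 + PowerSeries.C (δ - ε) *
          PowerSeries.X ^ (n + 1))) (cc (PowerSeries.C ε * PowerSeries.X ^ (n + 1)))
        rw [ha1, hb1]
        ext y
        rw [aff_apply e one_ne_zero]
        simp
      · show Agr M (n + 1) (Wr.f g x) (A e M (1 + PowerSeries.C (δ - ε) *
          PowerSeries.X ^ (n + 1)) (PowerSeries.C (e x) *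
            sh (1 + PowerSeries.C (δ - ε) * PowerSeries.X ^ (n + 1)) +
            sh (PowerSeries.C ε * PowerSeries.X ^ (n + 1))))
        rw [ha2, hb2]
        rcases hx x with rfl | rfl
        · rw [hg0]
          refine Agr.trans _ _ _ _ _ hu2 (agrA e _ _ _ _ _ _ cc_one' (cc_tr' n _) ?_ ?_)
          · exact ⟨-PowerSeries.C (δ - ε), by ring⟩
          · rw [Equiv.apply_symm_apply, map_zero, zero_mul, zero_add, sub_self]
            exact dvd_zero _
        · rw [hg1]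
          refine Agr.trans _ _ _ _ _ hv2 (agrA e _ _ _ _ _ _ cc_one' (cc_tr' n _) ?_ ?_)
          · exact ⟨-PowerSeries.C (δ - ε), by ring⟩
          · rw [Equiv.apply_symm_apply, map_one, one_mul, map_sub]
            have : (PowerSeries.C δ * PowerSeries.X ^ n - ((PowerSeries.C δ - PowerSeries.C ε) *
                PowerSeries.X ^ n + PowerSeries.C ε * PowerSeries.X ^ n) : PowerSeries F) = 0 := by
              ring
            rw [this]
            exact dvd_zero _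
    · intro x
      show Agr M n (Wr.f g x) 1
      have h3 : ∀ γ : F, Agr M n (A e M 1 (PowerSeries.C γ * PowerSeries.X ^ n)) 1 := by
        intro γ
        rw [← A_one e M]
        apply agrA e _ _ _ _ _ _ cc_one' cc_one'
        · rw [sub_self]; exact dvd_zero _
        · exact ⟨PowerSeries.C γ, by ring⟩
      rcases hx x with rfl | rfl
      · rw [hg0]
        exact Agr.trans _ _ _ _ _ (Agr.mono _ _ n _ _ (by omega) hu2) (h3 _)
      · rw [hg1]
        exact Agr.trans _ _ _ _ _ (Agr.mono _ _ n _ _ (by omega) hv2) (h3 _)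
    · intro x
      rcases hx x with rfl | rfl
      · rw [hg0]; exact hu3
      · rw [hg1]; exact hv3

lemma tot_succ [Fintype X] (h2 : ∀ x : F, x = 0 ∨ x = 1) (M n : ℕ) (hM : n + 1 ≤ M)
    (r : ℕ → ℕ) (hr : r 0 = n + 2) :
    tot e (M + 1) n r = 2 * tot e M n (fun i => r (i + 1)) ^ 2 := by
  have h1 := cnt_or (LA e (M + 1) r) (fun g => Agr (M + 1) (n + 1) g 1)
    (fun g => Agr (M + 1) (n + 1) ((A e (M + 1) 1 (PowerSeries.X ^ n))⁻¹ * g) 1)
    (Tp e (M + 1) n) (fun g _ => Tp_split e h2 (M + 1) n g)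
    (fun g _ h => split_disj e (M + 1) n (by omega) g h)
  rw [cnt_shift (LA e (M + 1) r) (fun g => Agr (M + 1) (n + 1) g 1)
    (A_mem_LA e (M + 1) r _ _ cc_one')] at h1
  have h3 := cnt_pairs e h2 M n hM r hr (fun _ => True)
  have h4 : cnt (LA e (M + 1) r) (fun g => Agr (M + 1) (n + 1) g 1 ∧ ∀ x : X, True) =
      cnt (LA e (M + 1) r) (fun g => Agr (M + 1) (n + 1) g 1) :=
    cnt_congr _ (fun g _ => by simp)
  have h5 : cnt (LA e M (fun i => r (i + 1))) (fun g => Tp e M n g ∧ True) =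
      cnt (LA e M (fun i => r (i + 1))) (Tp e M n) := cnt_congr _ (fun g _ => by simp)
  rw [h4, h5] at h3
  unfold tot
  rw [h1, h3]
  ring

lemma nof_succ [Fintype X] [Nonempty X] (h2 : ∀ x : F, x = 0 ∨ x = 1) (M n : ℕ) (hM : n + 1 ≤ M)
    (r : ℕ → ℕ) (hr : r 0 = n + 2) :
    nof e (M + 1) n r = nof e M n (fun i => r (i + 1)) ^ 2 +
      tot e M n (fun i => r (i + 1)) ^ 2 := by
  have h1 := cnt_or (LA e (M + 1) r)
    (fun g => Agr (M + 1) (n + 1) g 1 ∧ ¬ HasFix (M + 1) g)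
    (fun g => Agr (M + 1) (n + 1) ((A e (M + 1) 1 (PowerSeries.X ^ n))⁻¹ * g) 1)
    (fun g => Tp e (M + 1) n g ∧ ¬ HasFix (M + 1) g)
    (by
      intro g _
      rw [Tp_split e h2 (M + 1) n g]
      constructor
      · rintro ⟨h | h, h'⟩
        · exact Or.inl ⟨h, h'⟩
        · exact Or.inr h
      · rintro (⟨h, h'⟩ | h)
        · exact ⟨Or.inl h, h'⟩
        · refine ⟨Or.inr h, ?_⟩
          apply dead e 1 one_ne_zero n (M + 1) g (by omega)
          rw [map_one, one_mul]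
          have h3 := Agr.mul _ _ _ _ _ _ (Agr.refl (M + 1) (n + 1)
            (A e (M + 1) 1 (PowerSeries.X ^ n))) h
          rwa [mul_inv_cancel_left, mul_one] at h3)
    (fun g _ h => split_disj e (M + 1) n (by omega) g h.1)
  rw [cnt_shift (LA e (M + 1) r) (fun g => Agr (M + 1) (n + 1) g 1)
    (A_mem_LA e (M + 1) r _ _ cc_one')] at h1
  have h3 := cnt_pairs e h2 M n hM r hr (fun _ => True)
  have h4 : cnt (LA e (M + 1) r) (fun g => Agr (M + 1) (n + 1) g 1 ∧ ∀ x : X, True) =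
      cnt (LA e (M + 1) r) (fun g => Agr (M + 1) (n + 1) g 1) :=
    cnt_congr _ (fun g _ => by simp)
  have h5 : cnt (LA e M (fun i => r (i + 1))) (fun g => Tp e M n g ∧ True) =
      cnt (LA e M (fun i => r (i + 1))) (Tp e M n) := cnt_congr _ (fun g _ => by simp)
  rw [h4, h5] at h3
  have h6 := cnt_pairs e h2 M n hM r hr (fun g => ¬ HasFix M g)
  have h7 : cnt (LA e (M + 1) r) (fun g => Agr (M + 1) (n + 1) g 1 ∧
      ∀ x, ¬ HasFix M (Wr.f g x)) =
      cnt (LA e (M + 1) r) (fun g => Agr (M + 1) (n + 1) g 1 ∧ ¬ HasFix (M + 1) g) := by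
    apply cnt_congr
    intro g _
    constructor
    · rintro ⟨h, h'⟩
      refine ⟨h, ?_⟩
      rintro ⟨u, _, hu⟩
      exact h' u hu
    · rintro ⟨h, h'⟩
      refine ⟨h, fun x hx => h' ⟨x, ?_, hx⟩⟩
      have : Wr.s g = 1 := h.1
      rw [this]; rfl
  rw [h7] at h6
  unfold tot nof
  rw [h1, h3, h6]

/-- at precision zero every element counts -/
lemma Tp_zero (h2 : ∀ x : F, x = 0 ∨ x = 1) (M : ℕ) (r : ℕ → ℕ) (hr : 1 ≤ r 0) (g : TA X M)
    (hg : g ∈ LA e M r) : Tp e M 0 g := by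
  cases M with
  | zero => exact ⟨0, trivial⟩
  | succ M =>
    obtain ⟨hg1, a, b, ha, hg2⟩ := hg
    refine ⟨cc b, ?_⟩
    have h3 : cc a = 1 := by
      rcases h2 (cc a) with h | h
      · exact absurd h ha
      · exact h
    obtain ⟨r0, hr0⟩ : ∃ i, r 0 = i + 1 := ⟨r 0 - 1, by omega⟩
    rw [hr0] at hg2
    refine ⟨?_, fun x => Agr.zero _ _ _⟩
    have h4 : Wr.s g = aff e (cc a) (cc b) := hg2.1
    show Wr.s g = aff e (cc 1) (cc (PowerSeries.C (cc b) * PowerSeries.X ^ 0))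
    have h5 : cc (PowerSeries.C (cc b) * PowerSeries.X ^ 0 : PowerSeries F) = cc b := by
      unfold cc; simp
    rw [h4, h3, h5, cc_one]

end T9h67.FP
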