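import Pool.Agent.T9h67.FPB

/-!
# Every value in `[0, 1/3)` is the fixed-point proportion of a locally affine group
-/

namespace T9h67.FP

open Finset Classical Filter PowerSeries V1188.FP

set_option linter.unusedSectionVars false
set_option linter.unusedVariables false

variable {X : Type} {F : Type} [Field F] (e : X ≃ F) [Fintype X] [Nonempty X]

/-- proportion, within the class of precision `n`, of the elements without fixed words -/
noncomputable def rat (M n : ℕ) (r : ℕ → ℕ) : ℝ := (nof e M n r : ℝ) / (tot e M n r : ℝ)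

lemma tot_pos (M n : ℕ) (r : ℕ → ℕ) : 0 < tot e M n r :=
  cnt_one_pos _ _ ⟨0, by rw [map_zero, zero_mul, A_one]; exact Agr.refl _ _ _⟩

lemma nof_le (M n : ℕ) (r : ℕ → ℕ) : nof e M n r ≤ tot e M n r :=
  cnt_mono _ (fun g _ h => h.1)

lemma rat_nonneg (M n : ℕ) (r : ℕ → ℕ) : 0 ≤ rat e M n r := by unfold rat; positivity

lemma rat_le_one (M n : ℕ) (r : ℕ → ℕ) : rat e M n r ≤ 1 := by
  unfold rat
  rw [div_le_one (by exact_mod_cast tot_pos e M n r)]
  exact_mod_cast nof_le e M n r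

lemma rat_refine (h2 : ∀ x : F, x = 0 ∨ x = 1) (M n : ℕ) (hM : n + 2 ≤ M)
    (r : ℕ → ℕ) (hr : ∀ k, n + 3 ≤ r k) :
    rat e M n r = 1 / 2 + rat e M (n + 1) r / 4 := by
  have h1 := tot_refine e h2 M n hM r (by have := hr 0; omega)
  have h3 := nof_refine e h2 M n hM r hr
  have h4 : (0 : ℝ) < tot e M (n + 1) r := by exact_mod_cast tot_pos e M (n + 1) r
  unfold rat
  rw [h1, h3]
  push_cast
  field_simp
  ring

lemma rat_refine' (h2 : ∀ x : F, x = 0 ∨ x = 1) (M n : ℕ) (r : ℕ → ℕ) :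
    ∀ j : ℕ, n + j + 1 ≤ M → (∀ k, n + j + 2 ≤ r k) →
      rat e M n r = 2 / 3 * (1 - (1 / 4) ^ j) + (1 / 4) ^ j * rat e M (n + j) r
  | 0, _, _ => by simp
  | j + 1, hM, hr => by
    rw [rat_refine' h2 M n r j (by omega) (fun k => by have := hr k; omega),
      rat_refine e h2 M (n + j) (by omega) r (fun k => by have := hr k; omega)]
    have : n + (j + 1) = n + j + 1 := by omega
    rw [this, pow_succ]
    ring

lemma rat_succ (h2 : ∀ x : F, x = 0 ∨ x = 1) (M n : ℕ) (hM : n + 1 ≤ M)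
    (r : ℕ → ℕ) (hr : r 0 = n + 2) :
    rat e (M + 1) n r = (1 + rat e M n (fun i => r (i + 1)) ^ 2) / 2 := by
  have h1 := tot_succ e h2 M n hM r hr
  have h3 := nof_succ e h2 M n hM r hr
  have h4 : (0 : ℝ) < tot e M n (fun i => r (i + 1)) := by exact_mod_cast tot_pos e M n _
  unfold rat
  rw [h1, h3]
  push_cast
  field_simp
  ring

lemma rat_zero (h2 : ∀ x : F, x = 0 ∨ x = 1) (M : ℕ) (r : ℕ → ℕ) (hr : 1 ≤ r 0) :
    rat e M 0 r = 1 - (laFam e r).P M := by
  have h1 : tot e M 0 r = (laFam e r).a M :=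
    cnt_congr _ (fun g hg => ⟨fun _ => trivial, fun _ => Tp_zero e h2 M r hr g hg⟩)
  have h3 : (laFam e r).a M = (laFam e r).fx M + nof e M 0 r := by
    unfold Fam.a Fam.fx
    rw [cnt_split ((laFam e r).G M) (fun _ => True) (HasFix M)]
    congr 1
    · exact cnt_congr _ (fun g _ => by simp)
    · exact cnt_congr _ (fun g hg => by
        constructor
        · rintro ⟨_, h⟩; exact ⟨Tp_zero e h2 M r hr g hg, h⟩
        · rintro ⟨_, h⟩; exact ⟨trivial, h⟩)
  have h4 : (0 : ℝ) < (laFam e r).a M := by exact_mod_cast a_pos (laFam e r) M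
  unfold rat Fam.P
  rw [h1]
  have h5 : ((laFam e r).a M : ℝ) = (laFam e r).fx M + nof e M 0 r := by exact_mod_cast h3
  field_simp
  linarith

/-! ### The expansion -/

lemma step_exists (y : ℝ) (h1 : 2 / 3 < y) (h2 : y ≤ 1) : ∃ (j : ℕ) (y' : ℝ),
    2 / 3 < y' ∧ y' ≤ 1 ∧ y = 2 / 3 * (1 - (1 / 4) ^ j) + (1 / 4) ^ j * ((1 + y' ^ 2) / 2) := by
  set u := y - 2 / 3 with hu
  have hu0 : 0 < u := by linarith
  have hex : ∃ j : ℕ, 1 / 18 < (4 : ℝ) ^ j * u := by
    obtain ⟨j, hj⟩ := pow_unbounded_of_one_lt (1 / 18 / u) (by norm_num : (1 : ℝ) < 4)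
    refine ⟨j, ?_⟩
    rwa [div_lt_iff₀ hu0] at hj
  set j := Nat.find hex with hj
  have hj1 : 1 / 18 < (4 : ℝ) ^ j * u := Nat.find_spec hex
  have hj2 : (4 : ℝ) ^ j * u ≤ 1 / 3 := by
    rcases Nat.eq_zero_or_pos j with h0 | h0
    · rw [h0, pow_zero, one_mul]; linarith
    · obtain ⟨i, hi⟩ : ∃ i, j = i + 1 := ⟨j - 1, by omega⟩
      have := Nat.find_min hex (m := i) (by omega)
      push Not at this
      rw [hi, pow_succ]
      linarith
  set v := (4 : ℝ) ^ j * u with hv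
  have hp : (1 / 4 : ℝ) ^ j * v = u := by
    rw [hv, ← mul_assoc, ← mul_pow]
    norm_num
  have hs : Real.sqrt (1 / 3 + 2 * v) ^ 2 = 1 / 3 + 2 * v := Real.sq_sqrt (by linarith)
  refine ⟨j, Real.sqrt (1 / 3 + 2 * v), ?_, ?_, ?_⟩
  · rw [Real.lt_sqrt (by norm_num)]
    linarith
  · rw [Real.sqrt_le_left (by norm_num)]
    linarith
  · rw [hs]
    have : y = 2 / 3 + (1 / 4 : ℝ) ^ j * v := by rw [hp, hu]; ring
    rw [this]
    ring

/-- states of the expansion -/
def St : Type := {y : ℝ // 2 / 3 < y ∧ y ≤ 1}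

noncomputable def jj (y : St) : ℕ := (step_exists y.1 y.2.1 y.2.2).choose

noncomputable def nx (y : St) : St :=
  ⟨(step_exists y.1 y.2.1 y.2.2).choose_spec.choose,
    (step_exists y.1 y.2.1 y.2.2).choose_spec.choose_spec.1,
    (step_exists y.1 y.2.1 y.2.2).choose_spec.choose_spec.2.1⟩

lemma nx_spec (y : St) : y.1 = 2 / 3 * (1 - (1 / 4) ^ jj y) +
    (1 / 4) ^ jj y * ((1 + (nx y).1 ^ 2) / 2) :=
  (step_exists y.1 y.2.1 y.2.2).choose_spec.choose_spec.2.2

noncomputable def Y (y : St) : ℕ → St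
  | 0 => y
  | k + 1 => nx (Y y k)

noncomputable def mm (y : St) : ℕ → ℕ
  | 0 => 0
  | k + 1 => mm y k + jj (Y y k)

lemma mm_mono (y : St) : Monotone (mm y) :=
  monotone_nat_of_le_succ (fun k => Nat.le_add_right _ _)

noncomputable def rr (y : St) (k : ℕ) : ℕ → ℕ := fun i => mm y (k + i + 1) + 2

lemma rr_shift (y : St) (k : ℕ) : (fun i => rr y k (i + 1)) = rr y (k + 1) := by
  funext i
  unfold rr
  congr 2
  omega

lemma rr_ge (y : St) (k i : ℕ) : mm y (k + 1) + 2 ≤ rr y k i := by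
  unfold rr
  have := mm_mono y (show k + 1 ≤ k + i + 1 by omega)
  omega

lemma recur (h2 : ∀ x : F, x = 0 ∨ x = 1) (y : St) (k M : ℕ) (hM : mm y (k + 1) + 1 ≤ M) :
    rat e (M + 1) (mm y k) (rr y k) = 2 / 3 * (1 - (1 / 4) ^ jj (Y y k)) +
      (1 / 4) ^ jj (Y y k) * ((1 + rat e M (mm y (k + 1)) (rr y (k + 1)) ^ 2) / 2) := by
  have hm : mm y (k + 1) = mm y k + jj (Y y k) := rfl
  rw [rat_refine' e h2 (M + 1) (mm y k) (rr y k) (jj (Y y k)) (by omega)
    (fun i => by have := rr_ge y k i; omega), ← hm,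
    rat_succ e h2 M (mm y (k + 1)) hM (rr y k) rfl, rr_shift]

lemma lim_exists (h2 : ∀ x : F, x = 0 ∨ x = 1) (y : St) (k : ℕ) :
    ∃ L : ℝ, Tendsto (fun M => rat e M (mm y k) (rr y k)) atTop (nhds L) := by
  obtain ⟨c, hc⟩ := P_lim (laFam e (rr y k))
  have h1 : ∀ M, mm y k + 1 ≤ M → rat e M (mm y k) (rr y k) =
      4 ^ mm y k * (1 - (laFam e (rr y k)).P M - 2 / 3 * (1 - (1 / 4) ^ mm y k)) := by
    intro M hM
    have h3 := rat_refine' e h2 M 0 (rr y k) (mm y k) (by omega)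
      (fun i => by
        have := rr_ge y k i
        have h5 : mm y k ≤ mm y (k + 1) := mm_mono y (Nat.le_succ k)
        omega)
    rw [rat_zero e h2 M (rr y k) (by have := rr_ge y k 0; omega), zero_add] at h3
    have h4 : (4 : ℝ) ^ mm y k * (1 / 4) ^ mm y k = 1 := by rw [← mul_pow]; norm_num
    rw [h3]
    have : (4 : ℝ) ^ mm y k * (2 / 3 * (1 - (1 / 4) ^ mm y k) + (1 / 4) ^ mm y k *
      rat e M (mm y k) (rr y k) - 2 / 3 * (1 - (1 / 4) ^ mm y k)) =
      ((4 : ℝ) ^ mm y k * (1 / 4) ^ mm y k) * rat e M (mm y k) (rr y k) := by ring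
    rw [this, h4, one_mul]
  refine ⟨4 ^ mm y k * (1 - c - 2 / 3 * (1 - (1 / 4) ^ mm y k)), ?_⟩
  have h3 : Tendsto (fun M => (4 : ℝ) ^ mm y k * (1 - (laFam e (rr y k)).P M -
      2 / 3 * (1 - (1 / 4) ^ mm y k))) atTop
      (nhds (4 ^ mm y k * (1 - c - 2 / 3 * (1 - (1 / 4) ^ mm y k)))) :=
    ((tendsto_const_nhds.sub hc).sub tendsto_const_nhds).const_mul _
  apply h3.congr'
  filter_upwards [eventually_ge_atTop (mm y k + 1)] with M hM
  exact (h1 M hM).symm

lemma main_lim (h2 : ∀ x : F, x = 0 ∨ x = 1) (y : St) :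
    Tendsto (fun M => rat e M 0 (rr y 0)) atTop (nhds y.1) := by
  choose L hL using lim_exists e h2 y
  have hL0 : ∀ k, 0 ≤ L k := fun k => ge_of_tendsto' (hL k) (fun M => rat_nonneg e _ _ _)
  have hL1 : ∀ k, L k ≤ 1 := fun k => le_of_tendsto' (hL k) (fun M => rat_le_one e _ _ _)
  have hrec : ∀ k, L k = 2 / 3 * (1 - (1 / 4) ^ jj (Y y k)) +
      (1 / 4) ^ jj (Y y k) * ((1 + L (k + 1) ^ 2) / 2) := by
    intro k
    have h1 : Tendsto (fun M => rat e (M + 1) (mm y k) (rr y k)) atTop (nhds (L k)) :=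
      (tendsto_add_atTop_iff_nat 1).mpr (hL k)
    have h3 : Tendsto (fun M => 2 / 3 * (1 - (1 / 4 : ℝ) ^ jj (Y y k)) +
        (1 / 4) ^ jj (Y y k) * ((1 + rat e M (mm y (k + 1)) (rr y (k + 1)) ^ 2) / 2)) atTop
        (nhds (2 / 3 * (1 - (1 / 4) ^ jj (Y y k)) +
          (1 / 4) ^ jj (Y y k) * ((1 + L (k + 1) ^ 2) / 2))) :=
      ((((hL (k + 1)).pow 2).const_add 1).div_const 2).const_mul _ |>.const_add _
    have h4 : Tendsto (fun M => rat e (M + 1) (mm y k) (rr y k)) atTop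
        (nhds (2 / 3 * (1 - (1 / 4) ^ jj (Y y k)) +
          (1 / 4) ^ jj (Y y k) * ((1 + L (k + 1) ^ 2) / 2))) := by
      apply h3.congr'
      filter_upwards [eventually_ge_atTop (mm y (k + 1) + 1)] with M hM
      exact (recur e h2 y k M hM).symm
    exact tendsto_nhds_unique h1 h4
  have hY : ∀ k, (Y y k).1 = 2 / 3 * (1 - (1 / 4) ^ jj (Y y k)) +
      (1 / 4) ^ jj (Y y k) * ((1 + (Y y (k + 1)).1 ^ 2) / 2) := fun k => nx_spec (Y y k)
  set D : ℕ → ℝ := fun k => |L k - (Y y k).1| with hD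
  have hD1 : ∀ k, D k ≤ 1 := by
    intro k
    have h1 := (Y y k).2
    have h3 := hL0 k
    have h4 := hL1 k
    rw [hD]
    show |L k - (Y y k).1| ≤ 1
    rw [abs_le]
    constructor <;> linarith [h1.1, h1.2]
  have hstep : ∀ k, D k ≤ D (k + 1) * ((L (k + 1) + (Y y (k + 1)).1) / 2) := by
    intro k
    have h1 : L k - (Y y k).1 = (1 / 4) ^ jj (Y y k) *
        ((L (k + 1) - (Y y (k + 1)).1) * ((L (k + 1) + (Y y (k + 1)).1) / 2)) := by
      rw [hrec k]
      conv_lhs => rw [hY k]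
      ring
    show |L k - (Y y k).1| ≤ |L (k + 1) - (Y y (k + 1)).1| * _
    rw [h1, abs_mul, abs_mul]
    have h3 : |(1 / 4 : ℝ) ^ jj (Y y k)| ≤ 1 := by
      rw [abs_of_nonneg (by positivity)]
      exact pow_le_one₀ (by norm_num) (by norm_num)
    have h4 : 0 ≤ (L (k + 1) + (Y y (k + 1)).1) / 2 := by
      have := hL0 (k + 1)
      have := (Y y (k + 1)).2.1
      linarith
    rw [abs_of_nonneg h4]
    calc _ ≤ 1 * (|L (k + 1) - (Y y (k + 1)).1| * ((L (k + 1) + (Y y (k + 1)).1) / 2)) :=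
          mul_le_mul_of_nonneg_right h3 (mul_nonneg (abs_nonneg _) h4)
      _ = _ := one_mul _
  have hD0 : ∀ k, 0 ≤ D k := fun k => abs_nonneg _
  have hzero : D 0 = 0 := by
    by_contra hne
    have hpos : 0 < D 0 := lt_of_le_of_ne (hD0 0) (Ne.symm hne)
    set δ := D 0 with hδ
    have hmono : ∀ k, δ ≤ D k := by
      intro k
      induction k with
      | zero => exact le_refl _
      | succ k ih =>
        have h1 := hstep k
        have h3 : (L (k + 1) + (Y y (k + 1)).1) / 2 ≤ 1 := by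
          have := hL1 (k + 1)
          have := (Y y (k + 1)).2.2
          linarith
        have h4 : D (k + 1) * ((L (k + 1) + (Y y (k + 1)).1) / 2) ≤ D (k + 1) * 1 :=
          mul_le_mul_of_nonneg_left h3 (hD0 _)
        linarith
    have hδ1 : δ ≤ 1 := hD1 0
    have hgrow : ∀ k, δ ≤ (1 - δ / 2) ^ k * D k := by
      intro k
      induction k with
      | zero => simp [hδ]
      | succ k ih =>
        have h1 := hstep k
        have h3 : (L (k + 1) + (Y y (k + 1)).1) / 2 ≤ 1 - δ / 2 := by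
          have h5 := hmono (k + 1)
          have h6 : δ ≤ |L (k + 1) - (Y y (k + 1)).1| := h5
          have h7 := hL1 (k + 1)
          have h8 := (Y y (k + 1)).2.2
          rcases le_abs.mp h6 with h9 | h9 <;> linarith
        have h4 : D (k + 1) * ((L (k + 1) + (Y y (k + 1)).1) / 2) ≤ D (k + 1) * (1 - δ / 2) :=
          mul_le_mul_of_nonneg_left h3 (hD0 _)
        have h5 : 0 ≤ (1 - δ / 2) ^ k := pow_nonneg (by linarith) _
        calc δ ≤ (1 - δ / 2) ^ k * D k := ih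
          _ ≤ (1 - δ / 2) ^ k * (D (k + 1) * (1 - δ / 2)) :=
            mul_le_mul_of_nonneg_left (h1.trans h4) h5
          _ = _ := by rw [pow_succ]; ring
    obtain ⟨k, hk⟩ := exists_pow_lt_of_lt_one hpos (show 1 - δ / 2 < 1 by linarith)
    have h1 := hgrow k
    have h3 : (1 - δ / 2) ^ k * D k ≤ (1 - δ / 2) ^ k * 1 :=
      mul_le_mul_of_nonneg_left (hD1 k) (pow_nonneg (by linarith) _)
    linarith
  have h3 : L 0 = y.1 := by
    have : |L 0 - (Y y 0).1| = 0 := hzero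
    rw [abs_eq_zero, sub_eq_zero] at this
    exact this
  rw [← h3]
  exact hL 0

/-- every number in `[0, 1/3)` is attained -/
lemma all_values (h2 : ∀ x : F, x = 0 ∨ x = 1) (α : ℝ) (h0 : 0 ≤ α) (h1 : α < 1 / 3) :
    ∃ r : ℕ → ℕ, Tendsto (laFam e r).P atTop (nhds α) := by
  let y : St := ⟨1 - α, by linarith, by linarith⟩
  refine ⟨rr y 0, ?_⟩
  have h3 := main_lim e h2 y
  have h4 : Tendsto (fun M => 1 - rat e M 0 (rr y 0)) atTop (nhds (1 - (1 - α))) :=
    tendsto_const_nhds.sub h3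
  rw [sub_sub_cancel] at h4
  apply h4.congr
  intro M
  rw [rat_zero e h2 M (rr y 0) (by have := rr_ge y 0 0; omega)]
  ring

end T9h67.FP
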